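import Pool.Agent.V8H77.PC.Rig

set_option autoImplicit false
set_option linter.unusedSectionVars false

/-!
# The Mumford-Tate group is in the group, if the centre is rigid and the derived algebra is in the group
-/

open Module Function TensorProduct Matrix

noncomputable section

namespace Pool.Agent.V8H77.PC

open Pool.Agent.Y102 Pool.Agent.W516.DR Pool.Agent.H204R3.GP Pool.Agent.W516.KC
  Pool.Agent.H204R3.SP Pool.Agent.TH119.MX Pool.Agent.R917 Pool.Agent.N208.AM Pool.Agent.N208.AD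
  Pool.Agent.N208.CT

variable {g : ℕ} {A : AbVar g} {s n : ℕ} {r : Fin s → ℕ} {B : Fin n → Ten A r} {w : Fin s → ℤ}
  {P : Matrix (Fin n) (Fin n) ℂ} {H : Set (Matrix (Fin n) (Fin n) ℂ)}
  {Wt : Matrix (Fin n) (Fin n) ℚ} {N : Matrix (Fin n) (Fin n) ℝ}

theorem stab_der (hH : PtM P H) (hder : ∀ X ∈ der A.NA, ∀ M, Rel B X M → M ∈ LQ H)
    {M : Matrix (Fin n) (Fin n) ℝ} (hM : M ∈ spR B (der A.NA : Set (Module.End ℚ A.H1))) (d : ℕ) :
    Stab H d (cxm M) := by
  induction hM using Submodule.span_induction with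
  | mem M hM =>
    obtain ⟨Z, hZ, Mq, hMq, rfl⟩ := hM
    have h3 : cxm (rq Mq) = cq Mq := by
      ext i j
      simp [cxm]
    rw [h3]
    exact hder Z hZ Mq hMq d
  | zero =>
    have h3 : cxm (0 : Matrix (Fin n) (Fin n) ℝ) = 0 := by
      ext i j
      simp [cxm]
    rw [h3]
    exact Stab.zero
  | add a b _ _ ha hb =>
    have h3 : cxm (a + b) = cxm a + cxm b := by
      ext i j
      simp [cxm]
    rw [h3]
    exact ha.add hb
  | smul c a _ ha =>
    have h3 : cxm (c • a) = (c : ℂ) • cxm a := by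
      ext i j
      simp [cxm]
    rw [h3]
    exact ha.smul _

/-- **Main theorem**, if the centre is rigid and the derived algebra is in the Lie algebra of the group. -/
theorem main_cen (h : Mot w B P) (hW : WRel w B Wt) (hH : PtM P H) (hrig : Rigid A)
    (hder : ∀ X ∈ der A.NA, ∀ M, Rel B X M → M ∈ LQ H) (hN : RelR B AbVar.JJ N)
    {z : ℂ} (hz : z ≠ 0) : NormedSpace.exp (KK Wt N z) ∈ H ∧
      HRel w B z (NormedSpace.exp (KK Wt N z)) := by
  obtain ⟨N', hN', t, X, M, h1, h2⟩ := exists_J h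
  have h3 : N = N' := hN.uniq h.li hN'
  subst h3
  have h4 : N ∈ spR B (A.NA : Set (Module.End ℚ A.H1)) := by
    rw [h2]
    exact Submodule.sum_mem _ fun k _ => Submodule.smul_mem _ _ (mem_spR (h1 k).1 (h1 k).2)
  obtain ⟨Nc, hNc, Nd, hNd, hNe⟩ := exists_dec h h4
  refine ⟨exp_mem hH.grp fun d => ?_, hrel_exp hW hN hz⟩
  have h6 : cxm N = cxm Nc + cxm Nd := by
    rw [hNe]
    ext i j
    simp [cxm]
  unfold KK
  rw [h6]
  exact ((Wt_mem' h hW hH d).smul _).add
    (((stab_cen h hW hH hrig hNc d).add (stab_der hH hder hNd d)).smul _)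

end Pool.Agent.V8H77.PC
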