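import Mathlib

set_option autoImplicit false

/-!
# Odd rational relations and types

Let `G` be a finite abelian group, `c` an element with `2 c = 0` and let `x : G → ℂ` be odd,
`x (c + γ) = - x γ`, such that the translations of `x` are given by automorphisms of `ℂ`. If all the sums
`∑ γ ∈ Φ, x γ` over the types `Φ` (exactly one of `γ`, `c + γ` is in `Φ`) are different, then the
numbers `x γ` satisfy no odd linear relation with rational coefficients.
-/

namespace Pool.Agent.V8H77.PC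

open Finset

/-- exactly one of `γ`, `c + γ` is in `Φ` -/
def IsType {G : Type} [AddCommGroup G] (c : G) (Φ : Finset G) : Prop := ∀ γ, γ ∈ Φ ↔ c + γ ∉ Φ

section sum

/-- the mean of the powers of a root of unity -/
theorem geom_root {N : ℕ} {z : ℂ} (hz : z ^ N = 1) : ∑ j ∈ range N, z ^ j = if z = 1 then (N : ℂ) else 0 := by
  split_ifs with h
  · subst h
    simp
  · have h1 := mul_geom_sum z N
    rw [hz, sub_self] at h1
    exact (mul_eq_zero.1 h1).resolve_left (sub_ne_zero.2 h)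

/-- the product -/
theorem prod_expand {ι : Type} [DecidableEq ι] (P : Finset ι) (w : ι → ℂ) (j : ℕ) :
    ∏ q ∈ P, (1 - w q ^ j) = ∑ S ∈ P.powerset, (-1) ^ S.card * (∏ q ∈ S, w q) ^ j := by
  have h := Finset.prod_add (fun q => - w q ^ j) (fun _ => (1 : ℂ)) P
  have h1 : ∏ q ∈ P, (1 - w q ^ j) = ∏ q ∈ P, (- w q ^ j + 1) := by
    refine Finset.prod_congr rfl fun q _ => by ring
  rw [h1, h]
  refine Finset.sum_congr rfl fun S _ => ?_
  rw [Finset.prod_const_one, mul_one, Finset.prod_neg, Finset.prod_pow]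

end sum

section root
variable {N : ℕ} {ζ : ℂ}

/-- the numbers `ζ ^ (N / q)` separate the sets of primes -/
theorem separate (hN : N ≠ 0) (hζ : IsPrimitiveRoot ζ N) {S S' : Finset ℕ} (hS : S ⊆ N.primeFactors)
    (hS' : S' ⊆ N.primeFactors) (h : ∏ q ∈ S, ζ ^ (N / q) = ∏ q ∈ S', ζ ^ (N / q)) : S = S' := by
  classical
  have key : ∀ p ∈ N.primeFactors, ∀ S ⊆ N.primeFactors,
      (∏ q ∈ S, ζ ^ (N / q)) ^ (∏ q ∈ N.primeFactors.erase p, q) =
        if p ∈ S then (ζ ^ (N / p)) ^ (∏ q ∈ N.primeFactors.erase p, q) else 1 := by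
    intro p hp S hS
    rw [← Finset.prod_pow]
    have h1 : ∀ q ∈ S, q ≠ p → (ζ ^ (N / q)) ^ (∏ q ∈ N.primeFactors.erase p, q) = 1 := by
      intro q hq hqp
      have hq' : q ∈ N.primeFactors.erase p := Finset.mem_erase.2 ⟨hqp, hS hq⟩
      obtain ⟨m, hm⟩ := Finset.dvd_prod_of_mem (fun q => q) hq'
      have hm' : ∏ q ∈ N.primeFactors.erase p, q = q * m := hm
      rw [hm', ← pow_mul, ← mul_assoc, Nat.div_mul_cancel (Nat.dvd_of_mem_primeFactors (hS hq)), pow_mul,
        hζ.pow_eq_one, one_pow]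
    split_ifs with hpS
    · exact Finset.prod_eq_single_of_mem p hpS fun q hq hqp => h1 q hq hqp
    · exact Finset.prod_eq_one fun q hq => h1 q hq fun e => hpS (e ▸ hq)
  have hne : ∀ p ∈ N.primeFactors, (ζ ^ (N / p)) ^ (∏ q ∈ N.primeFactors.erase p, q) ≠ 1 := by
    intro p hp h0
    rw [← pow_mul, hζ.pow_eq_one_iff_dvd] at h0
    have hpp := Nat.prime_of_mem_primeFactors hp
    have hpN := Nat.dvd_of_mem_primeFactors hp
    obtain ⟨M, hM⟩ := hpN
    have hM0 : M ≠ 0 := by rintro rfl; exact hN (by rw [hM, mul_zero])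
    have hdiv : N / p = M := by rw [hM, Nat.mul_div_cancel_left _ hpp.pos]
    rw [hdiv] at h0
    have h1 : p ∣ ∏ q ∈ N.primeFactors.erase p, q := by
      refine Nat.dvd_of_mul_dvd_mul_left (Nat.pos_of_ne_zero hM0) ?_
      refine dvd_trans (dvd_of_eq ?_) h0
      rw [mul_comm, hM]
    obtain ⟨q, hq, hpq⟩ := (hpp.prime.dvd_finsetProd_iff _).1 h1
    have hq' := Finset.mem_erase.1 hq
    exact hq'.1 ((Nat.prime_dvd_prime_iff_eq hpp (Nat.prime_of_mem_primeFactors hq'.2)).1 hpq).symm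
  have mem : ∀ p ∈ N.primeFactors, (p ∈ S ↔ p ∈ S') := by
    intro p hp
    have h1 := key p hp S hS
    have h2 := key p hp S' hS'
    rw [h] at h1
    rw [h1] at h2
    by_cases a : p ∈ S <;> by_cases b : p ∈ S'
    · simp [a, b]
    · rw [if_pos a, if_neg b] at h2
      exact absurd h2 (hne p hp)
    · rw [if_neg a, if_pos b] at h2
      exact absurd h2.symm (hne p hp)
    · simp [a, b]
  ext p
  constructor
  · intro hp
    exact (mem p (hS hp)).1 hp
  · intro hp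
    exact (mem p (hS' hp)).2 hp

end root

section group
variable {G : Type} [AddCommGroup G] [Fintype G]

/-- a nonzero function has a nonzero Fourier coefficient -/
theorem exists_coeff (n : G → ℂ) (hn : n ≠ 0) : ∃ ψ : AddChar G ℂ, ∑ γ, n γ * ψ γ ≠ 0 := by
  classical
  by_contra h
  push Not at h
  apply hn
  let L : (G → ℂ) →ₗ[ℂ] ℂ :=
    { toFun := fun f => ∑ γ, n γ * f γ
      map_add' := fun f f' => by
        rw [← Finset.sum_add_distrib]
        exact Finset.sum_congr rfl fun γ _ => by rw [Pi.add_apply, mul_add]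
      map_smul' := fun a f => by
        rw [RingHom.id_apply, smul_eq_mul, Finset.mul_sum]
        exact Finset.sum_congr rfl fun γ _ => by rw [Pi.smul_apply, smul_eq_mul]; ring }
  have hL : L = 0 := by
    refine (AddChar.complexBasis G).ext fun ψ => ?_
    rw [AddChar.complexBasis_apply]
    exact h ψ
  funext γ
  have h1 : L (Pi.single γ 1) = 0 := by rw [hL]; rfl
  have h2 : L (Pi.single γ 1) = n γ := by
    change ∑ γ', n γ' * (Pi.single γ (1 : ℂ) : G → ℂ) γ' = n γ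
    rw [Finset.sum_eq_single γ]
    · simp
    · intro b _ hb
      simp [hb]
    · intro h
      exact absurd (Finset.mem_univ _) h
  rw [← h2, h1]
  rfl

theorem char_pow (ψ : AddChar G ℂ) (γ : G) : ψ γ ^ Fintype.card G = 1 := by
  rw [← AddChar.map_nsmul_eq_pow, card_nsmul_eq_zero, AddChar.map_zero_eq_one]

/-- rationality of the relations -/
theorem conj_coeff (n : G → ℚ) (ψ : AddChar G ℂ) {k : ℕ} (hk : k.Coprime (Fintype.card G))
    (h : ∑ γ, (n γ : ℂ) * ψ γ ^ k = 0) : ∑ γ, (n γ : ℂ) * ψ γ = 0 := by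
  classical
  have hN : Fintype.card G ≠ 0 := Fintype.card_ne_zero
  obtain ⟨ζ, hζ⟩ : ∃ ζ : ℂ, IsPrimitiveRoot ζ (Fintype.card G) := ⟨_, Complex.isPrimitiveRoot_exp _ hN⟩
  have hex : ∀ γ, ∃ a : ℕ, ζ ^ a = ψ γ := by
    intro γ
    have : NeZero (Fintype.card G) := ⟨hN⟩
    obtain ⟨i, -, hi⟩ := hζ.eq_pow_of_pow_eq_one (char_pow ψ γ)
    exact ⟨i, hi⟩
  choose a ha using hex
  let P : Polynomial ℚ := ∑ γ, Polynomial.C (n γ) * Polynomial.X ^ a γ
  have hP : ∀ z : ℂ, Polynomial.aeval z P = ∑ γ, (n γ : ℂ) * z ^ a γ := by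
    intro z
    simp [P]
  have hmin : minpoly ℚ ζ = minpoly ℚ (ζ ^ k) := by
    have h1 := hζ.minpoly_eq_pow_coprime hk
    have hi1 : IsIntegral ℤ ζ := hζ.isIntegral (Nat.pos_of_ne_zero hN)
    have hi2 : IsIntegral ℤ (ζ ^ k) := hi1.pow k
    rw [minpoly.isIntegrallyClosed_eq_field_fractions' ℚ hi1,
      minpoly.isIntegrallyClosed_eq_field_fractions' ℚ hi2, h1]
  have h1 : Polynomial.aeval (ζ ^ k) P = 0 := by
    rw [hP, ← h]
    refine Finset.sum_congr rfl fun γ _ => ?_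
    rw [← ha γ, ← pow_mul, ← pow_mul, mul_comm k]
  have h2 : minpoly ℚ ζ ∣ P := by
    rw [hmin]
    exact minpoly.dvd ℚ _ h1
  have h3 : Polynomial.aeval ζ P = 0 := by
    obtain ⟨Q, hQ⟩ := h2
    rw [hQ, map_mul, minpoly.aeval, zero_mul]
  rw [hP] at h3
  rw [← h3]
  exact Finset.sum_congr rfl fun γ _ => by rw [ha γ]

/-- a type -/
theorem exists_type {c : G} (hc0 : c ≠ 0) (hc : c + c = 0) : ∃ Φ : Finset G, IsType c Φ := by
  classical
  let e := Fintype.equivFin G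
  refine ⟨Finset.univ.filter fun γ => e γ < e (c + γ), fun γ => ?_⟩
  simp only [Finset.mem_filter, Finset.mem_univ, true_and, not_lt]
  rw [← add_assoc, hc, zero_add]
  constructor
  · exact fun h => h.le
  · intro h
    refine lt_of_le_of_ne h fun h1 => hc0 ?_
    have h2 := e.injective h1
    have h3 : c + γ = 0 + γ := by rw [zero_add]; exact h2.symm
    exact add_right_cancel h3

/-- **Theorem.** Odd rational relations. -/
theorem odd_rel {c : G} (hc : c + c = 0) (x : G → ℂ)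
    (hσ : ∀ γ, ∃ σ : ℂ →+* ℂ, ∀ γ', σ (x γ') = x (γ + γ'))
    (hD : ∀ Φ Φ' : Finset G, IsType c Φ → IsType c Φ' → ∑ γ ∈ Φ, x γ = ∑ γ ∈ Φ', x γ → Φ = Φ')
    (n : G → ℚ) (hn : ∀ γ, n (c + γ) = - n γ) (h0 : ∑ γ, (n γ : ℂ) * x γ = 0) : n = 0 := by
  classical
  by_contra hne
  obtain ⟨N, hNdef⟩ : ∃ N, N = Fintype.card G := ⟨_, rfl⟩
  have hN : N ≠ 0 := by rw [hNdef]; exact Fintype.card_ne_zero
  -- translations of the relation
  have htr : ∀ γ', ∑ γ, (n γ : ℂ) * x (γ' + γ) = 0 := by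
    intro γ'
    obtain ⟨σ, h1⟩ := hσ γ'
    have h2 := congrArg σ h0
    rw [map_zero, map_sum] at h2
    rw [← h2]
    refine Finset.sum_congr rfl fun γ _ => ?_
    rw [map_mul, map_ratCast, h1]
  obtain ⟨ψ₀, hψ₀⟩ := exists_coeff (fun γ => (n γ : ℂ)) (by
    intro h
    apply hne
    funext γ
    have := congrFun h γ
    simpa using this)
  let ψ : AddChar G ℂ := ψ₀⁻¹
  have hinv : ∀ γ, ψ γ * ψ₀ γ = 1 := by
    intro γ
    have h1 : (ψ₀⁻¹ * ψ₀) γ = (1 : AddChar G ℂ) γ := by rw [inv_mul_cancel]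
    exact h1
  -- the character is odd
  have hodd : ψ c = -1 := by
    have h1 : ∑ γ, (n γ : ℂ) * ψ₀ γ = - (ψ₀ c * ∑ γ, (n γ : ℂ) * ψ₀ γ) := by
      rw [Finset.mul_sum, ← Finset.sum_neg_distrib, ← Equiv.sum_comp (Equiv.addLeft c)]
      refine Finset.sum_congr rfl fun γ _ => ?_
      rw [Equiv.coe_addLeft, hn, AddChar.map_add_eq_mul]
      push_cast
      ring
    have h2 : (1 + ψ₀ c) * ∑ γ, (n γ : ℂ) * ψ₀ γ = 0 := by linear_combination h1
    have h3 := (mul_eq_zero.1 h2).resolve_right hψ₀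
    have h4 := hinv c
    have h5 : ψ₀ c = -1 := by linear_combination h3
    rw [h5] at h4
    linear_combination -h4
  -- the Fourier coefficients of `x`
  have hxhat : ∀ k : ℕ, k.Coprime N → ∑ γ, x γ * ψ γ ^ k = 0 := by
    intro k hk
    have h1 : ∑ γ', ψ γ' ^ k * ∑ γ, (n γ : ℂ) * x (γ' + γ) = 0 :=
      Finset.sum_eq_zero fun γ' _ => by rw [htr, mul_zero]
    have h2 : ∑ γ', ψ γ' ^ k * ∑ γ, (n γ : ℂ) * x (γ' + γ) =
        (∑ γ, (n γ : ℂ) * ψ₀ γ ^ k) * ∑ γ, x γ * ψ γ ^ k := by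
      rw [Finset.sum_mul]
      simp only [Finset.mul_sum]
      rw [Finset.sum_comm]
      refine Finset.sum_congr rfl fun γ _ => ?_
      rw [← Equiv.sum_comp (Equiv.addRight γ) (fun γ' => (n γ : ℂ) * ψ₀ γ ^ k * (x γ' * ψ γ' ^ k))]
      refine Finset.sum_congr rfl fun γ' _ => ?_
      rw [Equiv.coe_addRight, AddChar.map_add_eq_mul, mul_pow]
      have h3 : ψ γ ^ k * ψ₀ γ ^ k = 1 := by rw [← mul_pow, hinv, one_pow]
      linear_combination (-(n γ : ℂ) * x (γ' + γ) * ψ γ' ^ k) * h3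
    rw [h2] at h1
    refine (mul_eq_zero.1 h1).resolve_left fun h3 => hψ₀ ?_
    exact conj_coeff n ψ₀ (by rwa [← hNdef]) h3
  -- the function with values in `-1, 0, 1`
  obtain ⟨ζ, hζ⟩ : ∃ ζ : ℂ, IsPrimitiveRoot ζ N := ⟨_, Complex.isPrimitiveRoot_exp _ hN⟩
  let W : Finset ℕ → ℂ := fun S => ∏ q ∈ S, ζ ^ (N / q)
  have hWsep : ∀ S ∈ N.primeFactors.powerset, ∀ S' ∈ N.primeFactors.powerset, W S = W S' → S = S' :=
    fun S hS S' hS' h => separate hN hζ (Finset.mem_powerset.1 hS) (Finset.mem_powerset.1 hS') h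
  have hW0 : ∀ S, W S ≠ 0 := fun S => Finset.prod_ne_zero_iff.2 fun q _ => pow_ne_zero _ (hζ.ne_zero hN)
  have hWN : ∀ S, W S ^ N = 1 := by
    intro S
    change (∏ q ∈ S, ζ ^ (N / q)) ^ N = 1
    rw [← Finset.prod_pow]
    refine Finset.prod_eq_one fun q _ => ?_
    rw [← pow_mul, mul_comm, pow_mul, hζ.pow_eq_one, one_pow]
  let v : G → ℤ := fun γ => ∑ S ∈ N.primeFactors.powerset, if ψ γ = W S then (-1) ^ S.card else 0
  have hvval : ∀ γ, v γ = 0 ∨ v γ = 1 ∨ v γ = -1 := by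
    intro γ
    by_cases h1 : ∃ S ∈ N.primeFactors.powerset, ψ γ = W S
    · obtain ⟨S, hS, hSγ⟩ := h1
      have h2 : v γ = (-1) ^ S.card := by
        change ∑ S ∈ N.primeFactors.powerset, (if ψ γ = W S then (-1 : ℤ) ^ S.card else 0) = _
        rw [Finset.sum_eq_single_of_mem S hS fun S' hS' hne => ?_, if_pos hSγ]
        rw [if_neg]
        intro h3
        exact hne (hWsep S' hS' S hS (by rw [← h3, hSγ]))
      rw [h2]
      right
      exact neg_one_pow_eq_or ℤ _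
    · left
      push Not at h1
      exact Finset.sum_eq_zero fun S hS => by rw [if_neg (h1 S hS)]
  have hv0 : v 0 = 1 := by
    change ∑ S ∈ N.primeFactors.powerset, (if ψ 0 = W S then (-1 : ℤ) ^ S.card else 0) = 1
    have hE : W ∅ = 1 := Finset.prod_empty
    rw [Finset.sum_eq_single_of_mem ∅ (Finset.empty_mem_powerset _) fun S' hS' hne => ?_]
    · rw [AddChar.map_zero_eq_one, hE, if_pos rfl, Finset.card_empty, pow_zero]
    · rw [if_neg]
      intro h3
      rw [AddChar.map_zero_eq_one] at h3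
      exact hne (hWsep S' hS' ∅ (Finset.empty_mem_powerset _) (by rw [← h3, hE]))
  -- the Fourier expansion
  have hvF : ∀ γ, (N : ℂ) * (v γ : ℂ) =
      ∑ j ∈ Finset.range N, (∏ q ∈ N.primeFactors, (1 - (ζ⁻¹ ^ (N / q)) ^ j)) * ψ γ ^ j := by
    intro γ
    have h1 : ∀ j, ∏ q ∈ N.primeFactors, (1 - (ζ⁻¹ ^ (N / q)) ^ j) =
        ∑ S ∈ N.primeFactors.powerset, (-1) ^ S.card * ((W S)⁻¹) ^ j := by
      intro j
      rw [prod_expand N.primeFactors (fun q => ζ⁻¹ ^ (N / q)) j]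
      refine Finset.sum_congr rfl fun S _ => ?_
      congr 2
      change _ = (∏ q ∈ S, ζ ^ (N / q))⁻¹
      rw [← Finset.prod_inv_distrib]
      exact Finset.prod_congr rfl fun q _ => inv_pow ζ (N / q)
    simp only [h1]
    simp only [Finset.sum_mul]
    rw [Finset.sum_comm]
    have h2 : (v γ : ℂ) = ∑ S ∈ N.primeFactors.powerset, if ψ γ = W S then (-1 : ℂ) ^ S.card else 0 := by
      change ((∑ S ∈ N.primeFactors.powerset, (if ψ γ = W S then (-1 : ℤ) ^ S.card else 0) : ℤ) : ℂ) = _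
      push_cast
      rfl
    rw [h2, Finset.mul_sum]
    refine Finset.sum_congr rfl fun S _ => ?_
    have h3 : ∀ j, (-1 : ℂ) ^ S.card * ((W S)⁻¹) ^ j * ψ γ ^ j =
        (-1) ^ S.card * ((W S)⁻¹ * ψ γ) ^ j := fun j => by rw [mul_pow]; ring
    simp only [h3]
    rw [← Finset.mul_sum, geom_root]
    · have h4 : (W S)⁻¹ * ψ γ = 1 ↔ ψ γ = W S := by
        rw [inv_mul_eq_one₀ (hW0 S), eq_comm]
      by_cases h5 : ψ γ = W S
      · rw [if_pos h5, if_pos (h4.2 h5)]
        ring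
      · rw [if_neg h5, if_neg fun h => h5 (h4.1 h), mul_zero, mul_zero]
    · rw [mul_pow, inv_pow, hWN, inv_one, one_mul, hNdef, char_pow]
  have hprod : ∀ j, ¬ j.Coprime N → ∏ q ∈ N.primeFactors, (1 - (ζ⁻¹ ^ (N / q)) ^ j) = 0 := by
    intro j hj
    obtain ⟨p, hp, hpj, hpN⟩ := Nat.Prime.not_coprime_iff_dvd.1 hj
    refine Finset.prod_eq_zero (i := p) (Nat.mem_primeFactors.2 ⟨hp, hpN, hN⟩) ?_
    obtain ⟨m, rfl⟩ := hpj
    rw [← pow_mul, ← mul_assoc, Nat.div_mul_cancel hpN, pow_mul, inv_pow, hζ.pow_eq_one, inv_one, one_pow,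
      sub_self]
  -- `v` is odd
  have hNeven : Even N := by
    have h1 := char_pow ψ c
    rw [hodd, ← hNdef] at h1
    exact (neg_one_pow_eq_one_iff_even (by norm_num : (-1 : ℂ) ≠ 1)).1 h1
  have hvodd : ∀ γ, v (c + γ) = - v γ := by
    intro γ
    have h1 : (N : ℂ) * (v (c + γ) : ℂ) = - ((N : ℂ) * (v γ : ℂ)) := by
      rw [hvF, hvF, ← Finset.sum_neg_distrib]
      refine Finset.sum_congr rfl fun j _ => ?_
      by_cases hj : j.Coprime N
      · have hjo : Odd j := by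
          rw [← Nat.not_even_iff_odd]
          intro he
          have h2 : 2 ∣ Nat.gcd j N := Nat.dvd_gcd he.two_dvd hNeven.two_dvd
          rw [hj] at h2
          omega
        rw [AddChar.map_add_eq_mul, hodd, mul_pow, hjo.neg_one_pow]
        ring
      · rw [hprod j hj, zero_mul, zero_mul, neg_zero]
    have h2 : (v (c + γ) : ℂ) = - (v γ : ℂ) :=
      mul_left_cancel₀ (Nat.cast_ne_zero.2 hN) (by rw [h1]; ring)
    exact_mod_cast h2
  -- the relation
  have hvx : ∑ γ, (v γ : ℂ) * x γ = 0 := by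
    have h1 : (N : ℂ) * ∑ γ, (v γ : ℂ) * x γ = 0 := by
      rw [Finset.mul_sum]
      have h2 : ∀ γ, (N : ℂ) * ((v γ : ℂ) * x γ) =
          ∑ j ∈ Finset.range N, (∏ q ∈ N.primeFactors, (1 - (ζ⁻¹ ^ (N / q)) ^ j)) * (x γ * ψ γ ^ j) := by
        intro γ
        rw [← mul_assoc, hvF, Finset.sum_mul]
        exact Finset.sum_congr rfl fun j _ => by ring
      simp only [h2]
      rw [Finset.sum_comm]
      refine Finset.sum_eq_zero fun j _ => ?_
      rw [← Finset.mul_sum]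
      by_cases hj : j.Coprime N
      · rw [hxhat j hj, mul_zero]
      · rw [hprod j hj, zero_mul]
    exact (mul_eq_zero.1 h1).resolve_left (Nat.cast_ne_zero.2 hN)
  -- the types
  have hc0 : c ≠ 0 := by
    intro h
    rw [h, AddChar.map_zero_eq_one] at hodd
    norm_num at hodd
  obtain ⟨Φ₀, hΦ₀⟩ := exists_type hc0 hc
  let Φ : Finset G := Finset.univ.filter fun γ => v γ = 1 ∨ (v γ = 0 ∧ γ ∈ Φ₀)
  let Φ' : Finset G := Finset.univ.filter fun γ => v γ = -1 ∨ (v γ = 0 ∧ γ ∈ Φ₀)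
  have hΦ : IsType c Φ := by
    intro γ
    simp only [Φ, Finset.mem_filter, Finset.mem_univ, true_and, hvodd]
    have h1 := hΦ₀ γ
    rcases hvval γ with h | h | h <;> rw [h] <;> simp [h1]
  have hΦ' : IsType c Φ' := by
    intro γ
    simp only [Φ', Finset.mem_filter, Finset.mem_univ, true_and, hvodd]
    have h1 := hΦ₀ γ
    rcases hvval γ with h | h | h <;> rw [h] <;> simp [h1]
  have hsum : ∑ γ ∈ Φ, x γ - ∑ γ ∈ Φ', x γ = ∑ γ, (v γ : ℂ) * x γ := by
    rw [Finset.sum_filter, Finset.sum_filter, ← Finset.sum_sub_distrib]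
    refine Finset.sum_congr rfl fun γ _ => ?_
    rcases hvval γ with h | h | h <;> rw [h] <;> simp
  have h1 := hD Φ Φ' hΦ hΦ' (by rw [← sub_eq_zero, hsum, hvx])
  have h2 : (0 : G) ∈ Φ := Finset.mem_filter.2 ⟨Finset.mem_univ _, Or.inl hv0⟩
  rw [h1] at h2
  have h3 := (Finset.mem_filter.1 h2).2
  rw [hv0] at h3
  rcases h3 with h3 | h3
  · norm_num at h3
  · exact absurd h3.1 (by norm_num)

end group

end Pool.Agent.V8H77.PC
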