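import Pool.Agent.V8H77.PC.Four
import Pool.Agent.N208.CT.Main

set_option autoImplicit false
set_option linter.unusedSectionVars false

/-!
# Centres of abelian type are rigid
-/

open Module Function TensorProduct

noncomputable section

namespace Pool.Agent.V8H77.PC

open Pool.Agent.Y102 Pool.Agent.W516.DR Pool.Agent.H204R3.GP Pool.Agent.W516.KC
  Pool.Agent.H204R3.SP Pool.Agent.N208.AM

variable {g : ℕ} (A : AbVar g)

/-- The projector onto the part of the homology on which the derived algebra acts trivially. -/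
theorem exists_proj : ∃ P : Module.End ℚ A.H1, (∀ X ∈ A.NA, X * P = P * X) ∧
    (∀ Y ∈ A.NA, ∀ Z ∈ A.NA, (Y * Z - Z * Y) * P = 0) ∧
    ∀ w, (∀ Y ∈ A.NA, ∀ Z ∈ A.NA, (Y * Z - Z * Y) w = 0) → P w = w := by
  let V₀ : Submodule ℚ A.H1 :=
    { carrier := {w | ∀ Y ∈ A.NA, ∀ Z ∈ A.NA, (Y * Z - Z * Y) w = 0}
      zero_mem' := fun Y _ Z _ => map_zero _
      add_mem' := fun {a b} ha hb Y hY Z hZ => by rw [map_add, ha Y hY Z hZ, hb Y hY Z hZ, add_zero]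
      smul_mem' := fun c a ha Y hY Z hZ => by rw [map_smul, ha Y hY Z hZ, smul_zero] }
  have hst : ∀ X ∈ A.NA, ∀ w ∈ V₀, X w ∈ V₀ := by
    intro X hX w hw Y hY Z hZ
    have hD : Y * Z - Z * Y ∈ A.NA := A.NA_bracket hY hZ
    have h1 := hw _ hD X hX
    have h2 : (Y * Z - Z * Y) (X w) = ((Y * Z - Z * Y) * X - X * (Y * Z - Z * Y)) w +
        X ((Y * Z - Z * Y) w) := by
      rw [LinearMap.sub_apply ((Y * Z - Z * Y) * X), Module.End.mul_apply, Module.End.mul_apply]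
      abel
    rw [h2, h1, hw Y hY Z hZ, map_zero, add_zero]
  obtain ⟨V₁, hst₁, hc⟩ := A.semi_NA V₀ hst
  let P : Module.End ℚ A.H1 := Submodule.subtype V₀ ∘ₗ Submodule.linearProjOfIsCompl V₀ V₁ hc
  have hP0 : ∀ w ∈ V₀, P w = w := by
    intro w hw
    change ((Submodule.linearProjOfIsCompl V₀ V₁ hc w : V₀) : A.H1) = w
    exact congrArg Subtype.val (Submodule.linearProjOfIsCompl_apply_left hc ⟨w, hw⟩)
  have hP1 : ∀ w ∈ V₁, P w = 0 := by
    intro w hw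
    change ((Submodule.linearProjOfIsCompl V₀ V₁ hc w : V₀) : A.H1) = 0
    have h1 : Submodule.linearProjOfIsCompl V₀ V₁ hc w = 0 := Submodule.linearProjOfIsCompl_apply_right hc ⟨w, hw⟩
    rw [h1]
    rfl
  have hPm : ∀ w, P w ∈ V₀ := fun w => Subtype.property _
  refine ⟨P, fun X hX => LinearMap.ext fun w => ?_, fun Y hY Z hZ => LinearMap.ext fun w => ?_,
    fun w hw => hP0 w hw⟩
  · obtain ⟨a, ha, b, hb, rfl⟩ := Submodule.mem_sup.1 (hc.sup_eq_top ▸ Submodule.mem_top : w ∈ V₀ ⊔ V₁)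
    rw [Module.End.mul_apply, Module.End.mul_apply, map_add, map_add, map_add, map_add, hP0 a ha,
      hP1 b hb, hP0 _ (hst X hX a ha), hP1 _ (hst₁ X hX b hb), map_zero]
  · rw [Module.End.mul_apply, LinearMap.zero_apply]
    exact hPm w Y hY Z hZ

variable {A}

/-- Two eigenvectors of a generating element of the centre. -/
theorem gen_sep {X : Module.End ℚ A.H1} (hX : X ∈ A.CN) (hgen : ∀ T : Module.End ℚ A.H1,
    (∀ Y ∈ A.NA, ∀ Z ∈ A.NA, T * (Y * Z - Z * Y) = (Y * Z - Z * Y) * T) → T * X = X * T →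
    ∀ Z ∈ A.CN, T * Z = Z * T) {v v' : ℂ ⊗[ℚ] A.H1} (hv : v ≠ 0) (hv' : v' ≠ 0)
    (hd : ∀ Y ∈ A.NA, ∀ Z ∈ A.NA, (Y * Z - Z * Y).baseChange ℂ v = 0)
    (hd' : ∀ Y ∈ A.NA, ∀ Z ∈ A.NA, (Y * Z - Z * Y).baseChange ℂ v' = 0)
    {x : ℂ} (hx : X.baseChange ℂ v = x • v) (hx' : X.baseChange ℂ v' = x • v')
    {Z : Module.End ℚ A.H1} (hZ : Z ∈ A.CN) {z z' : ℂ} (hz : Z.baseChange ℂ v = z • v)
    (hz' : Z.baseChange ℂ v' = z' • v') : z = z' := by
  classical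
  obtain ⟨P, hP1, hP2, hP3⟩ := exists_proj A
  have hPv : P.baseChange ℂ v = v := by
    rw [← sub_eq_zero]
    refine eq_zero_of_cmp fun lam => ?_
    rw [map_sub, cmp_baseChange, sub_eq_zero]
    refine hP3 _ fun Y hY Z hZ => ?_
    rw [← cmp_baseChange, hd Y hY Z hZ, map_zero]
  obtain ⟨m, b, χ, hb⟩ := A.exists_basis
  obtain ⟨k, hk⟩ : ∃ k, b.repr v k ≠ 0 := by
    by_contra h
    push Not at h
    apply hv
    rw [← LinearEquiv.map_eq_zero_iff b.repr]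
    ext k
    exact h k
  have hcoord : ∀ R : A.ZA, ∀ u, b.coord k ((R : Module.End ℚ A.H1).baseChange ℂ u) = χ k R * b.coord k u := by
    intro R u
    have h1 : b.coord k ∘ₗ (R : Module.End ℚ A.H1).baseChange ℂ = χ k R • b.coord k := by
      refine b.ext fun l => ?_
      rw [LinearMap.comp_apply, hb, map_smul, LinearMap.smul_apply, Basis.coord_apply, Basis.repr_self,
        Finsupp.single_apply, smul_eq_mul, smul_eq_mul]
      by_cases hl : l = k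
      · rw [if_pos hl, hl]
      · rw [if_neg hl, mul_zero, mul_zero]
    exact congrArg (fun F : ℂ ⊗[ℚ] A.H1 →ₗ[ℂ] ℂ => F u) h1
  have hXk : χ k ⟨X, A.CN_le_ZA hX⟩ = x := by
    have h1 := hcoord ⟨X, A.CN_le_ZA hX⟩ v
    change b.coord k (X.baseChange ℂ v) = _ at h1
    rw [hx, map_smul, smul_eq_mul] at h1
    exact (mul_right_cancel₀ hk h1).symm
  let lam : ℂ ⊗[ℚ] A.H1 →ₗ[ℂ] ℂ := b.coord k ∘ₗ P.baseChange ℂ
  have hlv : lam v ≠ 0 := by
    change b.coord k (P.baseChange ℂ v) ≠ 0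
    rw [hPv]
    exact hk
  have hlX : ∀ u, lam (X.baseChange ℂ u) = x * lam u := by
    intro u
    change b.coord k ((P.baseChange ℂ * X.baseChange ℂ) u) = x * b.coord k (P.baseChange ℂ u)
    rw [← bc_mul, ← hP1 X hX.1, bc_mul, Module.End.mul_apply]
    have h2 := hcoord ⟨X, A.CN_le_ZA hX⟩ (P.baseChange ℂ u)
    rw [hXk] at h2
    exact h2
  have hlD : ∀ Y ∈ A.NA, ∀ Z ∈ A.NA, ∀ u, lam ((Y * Z - Z * Y).baseChange ℂ u) = 0 := by
    intro Y hY Z hZ u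
    change b.coord k ((P.baseChange ℂ * (Y * Z - Z * Y).baseChange ℂ) u) = 0
    rw [← bc_mul, ← hP1 _ (A.NA_bracket hY hZ), hP2 Y hY Z hZ, LinearMap.baseChange_zero,
      LinearMap.zero_apply, map_zero]
  let T : Module.End ℂ (ℂ ⊗[ℚ] A.H1) := lam.smulRight v'
  have hT : ∀ u, T u = lam u • v' := fun u => rfl
  have hTX : T * X.baseChange ℂ = X.baseChange ℂ * T := by
    refine LinearMap.ext fun u => ?_
    rw [Module.End.mul_apply, Module.End.mul_apply, hT, hT, hlX, map_smul, hx', smul_smul]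
    exact congrArg (· • v') (mul_comm x (lam u))
  have hTD : ∀ Y ∈ A.NA, ∀ Z ∈ A.NA, T * (Y * Z - Z * Y).baseChange ℂ =
      (Y * Z - Z * Y).baseChange ℂ * T := by
    intro Y hY Z hZ
    refine LinearMap.ext fun u => ?_
    rw [Module.End.mul_apply, Module.End.mul_apply, hT, hT, hlD Y hY Z hZ, map_smul, hd' Y hY Z hZ,
      zero_smul, smul_zero]
  have hTZ : T * Z.baseChange ℂ = Z.baseChange ℂ * T := by
    rw [← comm_iff]
    intro l
    exact hgen _ (fun Y hY Z hZ => (comm_iff _ T).2 (hTD Y hY Z hZ) l) ((comm_iff _ T).2 hTX l) Z hZ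
  have h1 := congrArg (fun F : Module.End ℂ (ℂ ⊗[ℚ] A.H1) => F v) hTZ
  simp only [Module.End.mul_apply] at h1
  rw [hz, map_smul, hT, map_smul, hz', ← sub_eq_zero, smul_smul, smul_smul, ← sub_smul] at h1
  have h2 := (smul_eq_zero.1 h1).resolve_right hv'
  have h3 : (z - z') * lam v = 0 := by linear_combination h2
  exact sub_eq_zero.1 ((mul_eq_zero.1 h3).resolve_right hlv)

/-- **The centre is of abelian type.** -/
structure AbCen (A : AbVar g) {G : Type} [AddCommGroup G] [Fintype G] (c : G)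
    (ε : G → Module.End ℚ A.H1 → ℂ) : Prop where
  two : c + c = 0
  odd : ∀ γ, ∀ X ∈ A.CN, ε (c + γ) X = - ε γ X
  galois : ∀ γ, ∃ σ : ℂ →+* ℂ, ∀ γ', ∀ X ∈ A.CN, σ (ε γ' X) = ε (γ + γ') X
  types : ∀ Φ : Finset G, IsType c Φ → ∃ v : ℂ ⊗[ℚ] A.H1, v ≠ 0 ∧
    (∀ Y ∈ A.NA, ∀ Z ∈ A.NA, (Y * Z - Z * Y).baseChange ℂ v = 0) ∧
    ∀ X ∈ A.CN, X.baseChange ℂ v = (∑ γ ∈ Φ, ε γ X) • v
  distinct : ∀ Φ Φ' : Finset G, IsType c Φ → IsType c Φ' →
    (∀ X ∈ A.CN, ∑ γ ∈ Φ, ε γ X = ∑ γ ∈ Φ', ε γ X) → Φ = Φ'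
  rational : ∀ (v : ℂ ⊗[ℚ] A.H1) (χ : Module.End ℚ A.H1 → ℂ), v ≠ 0 →
    (∀ X ∈ A.CN, X.baseChange ℂ v = χ X • v) → ∃ q : G → ℚ, ∀ X ∈ A.CN, χ X = ∑ γ, (q γ : ℂ) * ε γ X

/-- **Theorem.** A centre of abelian type is rigid. -/
theorem AbCen.rigid {G : Type} [AddCommGroup G] [Fintype G] {c : G}
    {ε : G → Module.End ℚ A.H1 → ℂ} (h : AbCen A c ε) : Pool.Agent.N208.CT.Rigid A := by
  classical
  intro X hX hgen Y hY r v x y hv hx hy hs
  obtain ⟨m, b, χ, hb⟩ := A.exists_basis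
  -- the relations of `X`
  have key : ∀ n : G → ℚ, (∀ γ, n (c + γ) = - n γ) → ∑ γ, (n γ : ℂ) * ε γ X = 0 → n = 0 := by
    refine fun n hn h0 => odd_rel h.two (fun γ => ε γ X) (fun γ => ?_) (fun Φ Φ' hΦ hΦ' he => ?_) n hn h0
    · obtain ⟨σ, hσ⟩ := h.galois γ
      exact ⟨σ, fun γ' => hσ γ' X hX⟩
    · obtain ⟨u, hu, hud, hue⟩ := h.types Φ hΦ
      obtain ⟨u', hu', hud', hue'⟩ := h.types Φ' hΦ'
      refine h.distinct Φ Φ' hΦ hΦ' fun Z hZ => ?_
      refine gen_sep hX hgen hu hu' hud hud' (x := ∑ γ ∈ Φ, ε γ X) (hue X hX) ?_ hZ (hue Z hZ) (hue' Z hZ)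
      rw [hue' X hX]
      exact congrArg (· • u') he.symm
  -- the coordinates
  have hcoord : ∀ k, ∀ R : A.ZA, ∀ u, b.coord k ((R : Module.End ℚ A.H1).baseChange ℂ u) =
      χ k R * b.coord k u := by
    intro k R u
    have h1 : b.coord k ∘ₗ (R : Module.End ℚ A.H1).baseChange ℂ = χ k R • b.coord k := by
      refine b.ext fun l => ?_
      rw [LinearMap.comp_apply, hb, map_smul, LinearMap.smul_apply, Basis.coord_apply, Basis.repr_self,
        Finsupp.single_apply, smul_eq_mul, smul_eq_mul]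
      by_cases hl : l = k
      · rw [if_pos hl, hl]
      · rw [if_neg hl, mul_zero, mul_zero]
    exact congrArg (fun F : ℂ ⊗[ℚ] A.H1 →ₗ[ℂ] ℂ => F u) h1
  have hex : ∀ i, ∃ k, b.coord k (v i) ≠ 0 := by
    intro i
    by_contra hne
    push Not at hne
    apply hv i
    rw [← LinearEquiv.map_eq_zero_iff b.repr]
    ext k
    exact hne k
  choose κ hκ using hex
  have hval : ∀ i, ∀ (R : A.ZA) (z : ℂ), (R : Module.End ℚ A.H1).baseChange ℂ (v i) = z • v i →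
      χ (κ i) R = z := by
    intro i R z hz
    have h1 := hcoord (κ i) R (v i)
    rw [hz, map_smul, smul_eq_mul] at h1
    exact (mul_right_cancel₀ (hκ i) h1).symm
  let χ' : Fin r → Module.End ℚ A.H1 → ℂ := fun i Z => if hZ : Z ∈ A.ZA then χ (κ i) ⟨Z, hZ⟩ else 0
  have hχ' : ∀ i Z (hZ : Z ∈ A.ZA), χ' i Z = χ (κ i) ⟨Z, hZ⟩ := fun i Z hZ => dif_pos hZ
  have hq : ∀ i, ∃ q : G → ℚ, ∀ Z ∈ A.CN, χ' i Z = ∑ γ, (q γ : ℂ) * ε γ Z := by
    intro i
    refine h.rational (b (κ i)) (χ' i) (b.ne_zero _) fun Z hZ => ?_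
    rw [hχ' i Z (A.CN_le_ZA hZ)]
    exact hb (κ i) ⟨Z, A.CN_le_ZA hZ⟩
  choose q hq using hq
  -- the odd part
  have hc2 : ∀ γ : G, c + (c + γ) = γ := fun γ => by rw [← add_assoc, h.two, zero_add]
  have hswap : ∀ (p : G → ℚ), ∀ Z ∈ A.CN, ∑ γ, (p (c + γ) : ℂ) * ε γ Z = - ∑ γ, (p γ : ℂ) * ε γ Z := by
    intro p Z hZ
    rw [← Equiv.sum_comp (Equiv.addLeft c), ← Finset.sum_neg_distrib]
    refine Finset.sum_congr rfl fun γ _ => ?_
    rw [Equiv.coe_addLeft, hc2, h.odd γ Z hZ]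
    ring
  let n : G → ℚ := fun γ => ∑ i, (q i γ - q i (c + γ))
  have hnodd : ∀ γ, n (c + γ) = - n γ := by
    intro γ
    change ∑ i, (q i (c + γ) - q i (c + (c + γ))) = - ∑ i, (q i γ - q i (c + γ))
    rw [← Finset.sum_neg_distrib]
    refine Finset.sum_congr rfl fun i _ => ?_
    rw [hc2]
    ring
  have hnval : ∀ Z ∈ A.CN, ∑ γ, (n γ : ℂ) * ε γ Z = 2 * ∑ i, χ' i Z := by
    intro Z hZ
    have h1 : ∀ γ, (n γ : ℂ) * ε γ Z = ∑ i, ((q i γ : ℂ) * ε γ Z - (q i (c + γ) : ℂ) * ε γ Z) := by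
      intro γ
      change ((∑ i, (q i γ - q i (c + γ)) : ℚ) : ℂ) * ε γ Z = _
      push_cast
      rw [Finset.sum_mul]
      exact Finset.sum_congr rfl fun i _ => by ring
    simp only [h1]
    rw [Finset.sum_comm, Finset.mul_sum]
    refine Finset.sum_congr rfl fun i _ => ?_
    rw [Finset.sum_sub_distrib, hswap (q i) Z hZ, hq i Z hZ]
    ring
  have hsumX : ∑ i, χ' i X = 0 := by
    rw [← hs]
    refine Finset.sum_congr rfl fun i _ => ?_
    rw [hχ' i X (A.CN_le_ZA hX)]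
    exact hval i ⟨X, A.CN_le_ZA hX⟩ (x i) (hx i)
  have hn0 : n = 0 := key n hnodd (by rw [hnval X hX, hsumX, mul_zero])
  have hsumY : ∑ i, χ' i Y = 0 := by
    have h1 := hnval Y hY
    rw [hn0] at h1
    simp only [Pi.zero_apply, Rat.cast_zero, zero_mul, Finset.sum_const_zero] at h1
    linear_combination (-1 / 2 : ℂ) * h1
  rw [← hsumY]
  refine Finset.sum_congr rfl fun i _ => ?_
  rw [hχ' i Y (A.CN_le_ZA hY)]
  exact (hval i ⟨Y, A.CN_le_ZA hY⟩ (y i) (hy i)).symm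

end Pool.Agent.V8H77.PC
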